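import Pool.Agent.H460SD.Main

/-!
# Optimal star-discrepancy rate in the plane for every measure
-/

namespace Pool.Agent.Results.MP_507a17_nt.PlaneAllMeasures

open MeasureTheory

/-- **The planar case of Q1.** For every Borel probability measure `μ` on `[0,1]²` and every
`N ≥ 1` there are `x_1, …, x_N ∈ [0,1]²` such that for every anchored box `{z | z < y}`
`|#{n | x_n < y} / N - μ {z | z < y}| ≤ (log₂ N / 2 + 3) / N`, and for `N ≥ 2` this is at most
`6 (log N)^(2-1) / N`. -/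
theorem result : ∀ μ : Measure (Fin 2 → ℝ), IsProbabilityMeasure μ →
    μ (Set.Icc (0 : Fin 2 → ℝ) 1)ᶜ = 0 → ∀ N : ℕ, 1 ≤ N →
      ∃ x : Fin N → (Fin 2 → ℝ), (∀ n, x n ∈ Set.Icc (0 : Fin 2 → ℝ) 1) ∧
        (∀ y : Fin 2 → ℝ,
          |((Finset.univ.filter (fun n : Fin N => ∀ i, x n i < y i)).card : ℝ) / (N : ℝ)
              - (μ {z : Fin 2 → ℝ | ∀ i, z i < y i}).toReal|
            ≤ (Real.logb 2 N / 2 + 3) / (N : ℝ)) ∧
        (2 ≤ N → ∀ y : Fin 2 → ℝ,
          |((Finset.univ.filter (fun n : Fin N => ∀ i, x n i < y i)).card : ℝ) / (N : ℝ)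
              - (μ {z : Fin 2 → ℝ | ∀ i, z i < y i}).toReal|
            ≤ 6 * (Real.log (N : ℝ)) ^ (2 - 1) / (N : ℝ)) := by
  intro μ hμ1 hμ N hN
  have hNr : (0:ℝ) < N := by exact_mod_cast hN
  have hN1 : (1:ℝ) ≤ N := by exact_mod_cast hN
  obtain ⟨x, hx, hy⟩ := Pool.Agent.H460SD.main2 μ hμ N (Nat.clog 2 N) hN
    (Nat.le_pow_clog (by norm_num) N)
  have hclog : (Nat.clog 2 N : ℝ) ≤ Real.logb 2 N + 1 := by
    rcases Nat.lt_or_ge 1 N with h1 | h1
    · have h2 : 2 ^ (Nat.clog 2 N - 1) < N := Nat.pow_pred_clog_lt_self (by norm_num) h1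
      have h3 : 1 ≤ Nat.clog 2 N := Nat.clog_pos (by norm_num) h1
      have h4 : ((Nat.clog 2 N - 1 : ℕ) : ℝ) ≤ Real.logb 2 N := by
        rw [Real.le_logb_iff_rpow_le (by norm_num) hNr, Real.rpow_natCast]
        exact_mod_cast h2.le
      rw [Nat.cast_sub h3] at h4
      push_cast at h4
      linarith
    · have : N = 1 := by omega
      subst this
      simp
  have key : ∀ y : Fin 2 → ℝ,
      |((Finset.univ.filter (fun n : Fin N => ∀ i, x n i < y i)).card : ℝ) / (N : ℝ)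
          - (μ {z : Fin 2 → ℝ | ∀ i, z i < y i}).toReal|
        ≤ (Real.logb 2 N / 2 + 3) / (N : ℝ) := by
    intro y
    have h1 := hy y
    rw [le_div_iff₀ hNr]
    have h2 : |((Finset.univ.filter (fun n : Fin N => ∀ i, x n i < y i)).card : ℝ) / (N : ℝ)
        - (μ {z : Fin 2 → ℝ | ∀ i, z i < y i}).toReal| * N =
        |((Finset.univ.filter (fun n : Fin N => ∀ i, x n i < y i)).card : ℝ) -
          N * (μ {z : Fin 2 → ℝ | ∀ i, z i < y i}).toReal| := by
      rw [← abs_of_pos hNr, ← abs_mul, abs_of_pos hNr]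
      congr 1
      field_simp
    rw [h2]
    refine (le_trans ?_ (h1.trans ?_))
    · exact le_of_eq (by congr)
    · linarith
  refine ⟨x, hx, key, fun hN2 y => (key y).trans ?_⟩
  have hN2r : (2:ℝ) ≤ N := by exact_mod_cast hN2
  have hl2 : (0.69 : ℝ) < Real.log 2 := by have := Real.log_two_gt_d9; linarith
  have hl : Real.log 2 ≤ Real.log N := Real.log_le_log (by norm_num) hN2r
  have hlb : Real.logb 2 N * Real.log 2 = Real.log N := by
    rw [Real.logb, div_mul_cancel₀]; linarith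
  have hlb0 : 0 ≤ Real.logb 2 N := Real.logb_nonneg (by norm_num) hN1
  have h3 : Real.logb 2 N * 0.69 ≤ Real.log N := by
    rw [← hlb]
    exact mul_le_mul_of_nonneg_left hl2.le hlb0
  have h4 : Real.logb 2 N / 2 + 3 ≤ 6 * (Real.log (N : ℝ)) ^ (2 - 1) := by
    norm_num
    linarith
  gcongr

end Pool.Agent.Results.MP_507a17_nt.PlaneAllMeasures
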